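import Pool.Agent.N207.AX.Conj
import Pool.Agent.N227.CF.Low
import Pool.Agent.W175.GF.Final
import Pool.Agent.W253.GF.GTD

/-!
# Values of the Gamma function at all conjugates of the points of algebraic varieties over a number field

Let `K` be a number field and `y_1, …, y_n` nonconstant algebraic functions on a variety over `K` with coordinates in the
affine space of dimension `d`, with condition (H) of the problem as functions: no `y_i` is in `ℚ y_j + ℚ` for `i ≠ j`. For a
point `s` with coordinates in `K` we consider the `n [K : ℚ]` numbers `Γ(φ(y_i(s)))`, `φ` running through the embeddings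
of `K`. The arguments `φ(y_i(s))` are algebraic, and in general they satisfy condition (H) together, and then the
conjecture says that the `n [K : ℚ]` numbers are algebraically independent. We show that they satisfy no relation of
growing degree and height, with coefficients relative to arbitrary constants, for 100 percent of the points `s` with
given denominators.
-/

set_option autoImplicit false

open Filter NumberField

namespace Pool.Agent.Results.MP_26ad15_nt.AllConjugates

/-- Algebraic functions `y_1, …, y_n` of `d` variables on a connected nonempty open set, not constant, which satisfy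
condition (H) and do not have a pole of `Γ` as a value -/
structure Family {d n : ℕ} (U : Set (Fin d → ℂ)) (y : Fin n → (Fin d → ℂ) → ℂ) : Prop where
  isOpen : IsOpen U
  isPreconnected : IsPreconnected U
  nonempty : U.Nonempty
  analytic : ∀ i, AnalyticOnNhd ℂ (y i) U
  /-- `y_i` satisfies on `U` a polynomial equation over the polynomials in the coordinates -/
  algebraic : ∀ i, ∃ Q : Polynomial (MvPolynomial (Fin d) ℂ), Q ≠ 0 ∧
    ∀ z ∈ U, Q.eval₂ (MvPolynomial.eval z) (y i z) = 0
  nonconstant : ∀ i c, ∃ z ∈ U, y i z ≠ c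
  conditionH : ∀ i j, i ≠ j → ∀ a b : ℚ, ∃ z ∈ U, y i z ≠ a * y j z + b
  notPole : ∀ i, ∀ z ∈ U, ∀ m : ℕ, y i z ≠ -m

/-- the points of norm at most `k` at distance at least `1 / k` from the complement of `U` -/
def Inner {d : ℕ} (U : Set (Fin d → ℂ)) (k : ℕ) : Set (Fin d → ℂ) := {z | ‖z‖ ≤ k ∧ Metric.ball z (k : ℝ)⁻¹ ⊆ U}

/-- the points with integral coordinates in `K` all of whose conjugates are at most `T` in absolute value -/
def Points (K : Type) [Field K] [NumberField K] (d : ℕ) (T : ℝ) : Set (Fin d → 𝓞 K) := {a | ∀ j, house (a j : K) ≤ T}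

variable {K : Type} [Field K] [NumberField K] {d n : ℕ}

/-- **The exceptional points**: `s` in `K ^ d`, all of whose conjugates `φ s` are in the compact sets `Inner (U φ) k`,
such that some nonzero polynomial `R` in `n [K : ℚ]` variables, of partial degrees at most `k`, whose coefficients are
combinations `∑ ξ i * c i` with integers `c i` of `L` all of whose conjugates are at most `T ^ k`, vanishes at the
numbers `Γ(y φ i (φ s))` -/
def Exceptional (U : (K →+* ℂ) → Set (Fin d → ℂ)) (y : (K →+* ℂ) → Fin n → (Fin d → ℂ) → ℂ) (L : Type) [Field L]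
    [NumberField L] (io : L →+* ℂ) (k : ℕ) (ξ : Fin k → ℂ) (T : ℝ) : Set (Fin d → K) :=
  {s | (∀ φ : K →+* ℂ, (fun j => φ (s j)) ∈ Inner (U φ) k) ∧
    ∃ R : MvPolynomial ((K →+* ℂ) × Fin n) ℂ, R ≠ 0 ∧ (∀ y, R.degreeOf y ≤ k) ∧
    (∀ m, ∃ c : Fin k → 𝓞 L, (∀ i (φ : L →+* ℂ), ‖φ (c i : L)‖ ≤ T ^ (k : ℝ)) ∧
      R.coeff m = ∑ i, ξ i * io (c i : L)) ∧
    MvPolynomial.eval (fun q => Complex.Gamma (y q.1 q.2 fun j => q.1 (s j))) R = 0}

/-- **The Gamma function at all conjugates of almost all points.** Let `K` be a number field and let for every complex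
embedding `φ` of `K` algebraic functions `y φ 1, …, y φ n` as above be given (there is no condition between different
`φ`).

There are `ω → ∞` and `C` such that for all large `T`, all number fields `L` of degree at most `ω T`, with an embedding
in the complex numbers such that `L` contains all conjugates of `K`, all complex numbers `ξ i`, `i < ω T`, and all
integral points `b` of `K` of house at most `T` with nonzero coordinates, the proportion of the integral points `x` of
`K` of house at most `T` such that `x / b` is exceptional is at most `C T ^ (-1 + 2 / ω T)`. So for 100 percent of the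
points `s = x / b` the `n [K : ℚ]` numbers `Γ(y φ i (φ s))` have no nonzero polynomial relation of growing degree and
height, relative to arbitrary constants. -/
theorem result (K : Type) [Field K] [NumberField K] (d n : ℕ) (hd : 0 < d)
    (U : (K →+* ℂ) → Set (Fin d → ℂ)) (y : (K →+* ℂ) → Fin n → (Fin d → ℂ) → ℂ) (h : ∀ φ, Family (U φ) (y φ)) :
    ∃ (ω : ℝ → ℕ) (C T₀ : ℝ), Tendsto ω atTop atTop ∧ Monotone ω ∧ ∀ T, T₀ ≤ T → 0 < ω T ∧
      (Points K d T).Finite ∧ (Points K d T).Nonempty ∧
      ∀ (L : Type) [Field L] [NumberField L], Module.finrank ℚ L ≤ ω T → ∀ io : L →+* ℂ,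
        (∀ φ : K →+* ℂ, ∃ φ' : K →+* L, io.comp φ' = φ) →
        ∀ (ξ : Fin (ω T) → ℂ), ∀ b ∈ Points K d T, (∀ j, b j ≠ 0) →
          ({x ∈ Points K d T | (fun j => (x j : K) / (b j : K)) ∈ Exceptional U y L io (ω T) ξ T}.ncard : ℝ) ≤
            C * T ^ (-1 + 2 / (ω T : ℝ)) * (Points K d T).ncard := by
  classical
  have : Nonempty (Fin d) := ⟨⟨0, hd⟩⟩
  have hI : ∀ φ : K →+* ℂ, N207.AX.Ind (U φ) (fun i z => Complex.Gamma (y φ i z)) := by
    intro φ P hP
    by_contra hne
    obtain ⟨t, ht, -, h1⟩ := Pool.Agent.W253.GF.gtd Pool.Agent.W175.GF.gtF d n (U φ) (y φ) (h φ).isOpen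
      (h φ).isPreconnected (h φ).nonempty (h φ).analytic
      (fun i => by
        obtain ⟨Q, hQ, hz⟩ := (h φ).algebraic i
        exact ⟨Q, hQ, fun t ht => by rw [Polynomial.eval_map]; exact hz t ht⟩)
      (fun i v hv => by
        obtain ⟨z, hz, hne⟩ := (h φ).nonconstant i v
        exact hne (hv z hz))
      (fun i j hij p q hv => by
        obtain ⟨z, hz, hne⟩ := (h φ).conditionH i j hij p q
        exact hne (hv z hz)) P hne
    apply h1
    rw [MvPolynomial.eval_map]
    exact hP t ht
  have han : ∀ φ i, AnalyticOnNhd ℂ (fun z => Complex.Gamma (y φ i z)) (U φ) := by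
    intro φ i z hz
    have h1 : AnalyticAt ℂ Complex.Gamma (y φ i z) := by
      have h2 : ∀ᶠ w in nhds (y φ i z), DifferentiableAt ℂ Complex.Gamma w := by
        have h3 : Differentiable ℂ fun s => (Complex.Gamma s)⁻¹ := Complex.differentiable_one_div_Gamma
        have h4 : (Complex.Gamma (y φ i z))⁻¹ ≠ 0 := inv_ne_zero (Complex.Gamma_ne_zero ((h φ).notPole i z hz))
        filter_upwards [h3.continuous.continuousAt.eventually_ne h4] with w hw
        have h5 := (h3 w).inv hw
        have h7 : (fun s => (Complex.Gamma s)⁻¹)⁻¹ = Complex.Gamma := by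
          funext s
          simp
        rwa [h7] at h5
      exact Complex.analyticAt_iff_eventually_differentiableAt.2 h2
    exact AnalyticAt.comp (g := Complex.Gamma) (f := y φ i) h1 ((h φ).analytic i z hz)
  obtain ⟨c, C₁, hc, hC₁, hlow⟩ := N227.CF.low K (Fin d)
  obtain ⟨ω, C, T₀, hC, h1, h2, h3⟩ := N207.AX.conj_ind (fun φ => (h φ).isPreconnected)
    (fun φ => (h φ).isOpen) (fun φ => (h φ).nonempty) han hI
  refine ⟨ω, C / c, max T₀ 1, h1, h2, fun T hT => ⟨(h3 T ((le_max_left _ _).trans hT)).1, ?_, ?_, ?_⟩⟩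
  · exact (hlow T ((le_max_right _ _).trans hT)).1
  · refine ⟨0, fun j => ?_⟩
    have h5 : ((0 : Fin d → 𝓞 K) j : K) = 0 := by simp
    have h6 : house (0 : K) = 0 := by simp [house]
    rw [h5, h6]
    exact zero_le_one.trans ((le_max_right _ _).trans hT)
  · intro L _ _ hL io hemb ξ b hb hb0
    have hT1 : 1 ≤ T := (le_max_right _ _).trans hT
    have hTp : 0 < T := by linarith
    obtain ⟨-, h4⟩ := (h3 T ((le_max_left _ _).trans hT)).2 L hL io hemb ξ b (fun j => ⟨hb0 j, hb j⟩)
    obtain ⟨-, h5, -⟩ := hlow T hT1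
    have h6 : ({x ∈ Points K d T | (fun j => (x j : K) / (b j : K)) ∈ Exceptional U y L io (ω T) ξ T}.ncard : ℝ) ≤
        C * T ^ ((Module.finrank ℚ K * Fintype.card (Fin d) : ℝ) - 1 + 2 * ((ω T : ℝ)⁻¹)) := h4
    refine h6.trans ?_
    have h7 : (T : ℝ) ^ ((Module.finrank ℚ K * Fintype.card (Fin d) : ℝ) - 1 + 2 * ((ω T : ℝ)⁻¹)) =
        T ^ (-1 + 2 / (ω T : ℝ)) * T ^ (Module.finrank ℚ K * Fintype.card (Fin d)) := by
      rw [← Real.rpow_natCast T (Module.finrank ℚ K * Fintype.card (Fin d)), ← Real.rpow_add hTp]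
      congr 1
      push_cast
      ring
    rw [h7]
    have h8 : T ^ (Module.finrank ℚ K * Fintype.card (Fin d)) ≤ ((Points K d T).ncard : ℝ) / c := by
      rw [le_div_iff₀ hc, mul_comm]
      exact h5
    calc C * (T ^ (-1 + 2 / (ω T : ℝ)) * T ^ (Module.finrank ℚ K * Fintype.card (Fin d))) ≤
          C * (T ^ (-1 + 2 / (ω T : ℝ)) * (((Points K d T).ncard : ℝ) / c)) :=
          mul_le_mul_of_nonneg_left (mul_le_mul_of_nonneg_left h8 (by positivity)) hC
      _ = _ := by ring

end Pool.Agent.Results.MP_26ad15_nt.AllConjugates
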