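import Mathlib
import Pool.Agent.X255.RH.Main
import Pool.Agent.Y549.GM.Loc

/-!
# Values of the Gamma function at all roots of almost all integral polynomials

Let `y_1, …, y_p` be complex polynomials which satisfy condition (H) of the conjecture as functions: no `y_i` is constant or in `ℚ y_k + ℚ`,
`k ≠ i`. For instance `p = 1` and `y_1 = x`, or `y_i = α_i x + γ_i`. We consider the numbers `Γ(y_i(x))` where `x` runs through ALL the roots of
an integral polynomial of degree `g` at which no `y_i` is a pole of `Γ`; so `x` runs through algebraic numbers of degree `g` with all their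
conjugates. The conjecture predicts that these numbers are algebraically independent for almost all polynomials.

We prove: for almost all polynomials with coefficients at most `T` these numbers satisfy together no algebraic relation over number fields
whose degree and whose field degree is at most `ω(T)` and whose height is at most `T ^ ω(T)`, where `ω(T) → ∞`; the coefficients of the relations
may contain arbitrary given complex numbers `ξ_0, ξ_1, …`, for instance the powers of `π`, or the values of `Γ` at all rational numbers.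

The proof is an application of `Pool.Agent.X255.RH.main_all` (values of algebraically independent functions at the roots of almost all
polynomials) and `Pool.Agent.Y549.GM.locInd` (algebraic independence of the functions `Γ(y_i)` over `ℂ(x)`).
-/

set_option autoImplicit false

open Polynomial Filter Topology NumberField

namespace Pool.Agent.Results.MP_26ad15_nt.GammaAtAllRoots

/-- The integral vectors `a = (a_0, …, a_g)` with `|a_i| ≤ T`. -/
noncomputable def box (g T : ℕ) : Finset (Fin (g + 1) → ℤ) := Fintype.piFinset fun _ => Finset.Icc (-(T : ℤ)) (T : ℤ)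

/-- The polynomial `a_0 + a_1 x + … + a_g x^g`. -/
noncomputable def poly {g : ℕ} (a : Fin (g + 1) → ℤ) : ℂ[X] := ∑ i, C (a i : ℂ) * X ^ (i : ℕ)

/-- The points `z` such that no `y_i(z)` is a pole `-m` of `Γ`. -/
def noPole {p : ℕ} (y : Fin p → ℂ[X]) : Set ℂ := {z | ∀ i, ∀ m : ℕ, (y i).eval z ≠ -m}

/-- The roots of the polynomial with the coefficients `a` at which no `y_i` is a pole of `Γ`. -/
noncomputable def roots {g p : ℕ} (y : Fin p → ℂ[X]) (a : Fin (g + 1) → ℤ) : Finset ℂ := by
  classical exact (poly a).roots.toFinset.filter fun z => z ∈ noPole y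

/-- The numbers `x q` satisfy no relation of degree at most `k` in each of them with coefficients `∑_{b < k} ξ_b c_b`, where the `c_b` are
integers of a number field of degree at most `k` all of whose conjugates are at most `T ^ k`, except the relations all of whose coefficients
vanish. -/
def NoRelation {Q : Type} [Fintype Q] [DecidableEq Q] (ξ : ℕ → ℂ) (k : ℕ) (T : ℝ) (x : Q → ℂ) : Prop :=
  ∀ (F : Type) [Field F] [NumberField F], Module.finrank ℚ F ≤ k → ∀ (io : F →+* ℂ)
    (c : (Q → Fin (k + 1)) → Fin k → 𝓞 F), (∀ l b (φ : F →+* ℂ), ‖φ (c l b : F)‖ ≤ T ^ k) →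
    ∑ l, (∑ b : Fin k, ξ b * io (c l b : F)) * ∏ q, x q ^ (l q : ℕ) = 0 → ∀ l, ∑ b : Fin k, ξ b * io (c l b : F) = 0

/-- The polynomial with the coefficients `a` has degree `g` and simple roots, and there is no relation between the numbers `Γ(y_i(x))` at all
its roots `x` (where all of them are defined) together. -/
def Good {g p : ℕ} (y : Fin p → ℂ[X]) (ξ : ℕ → ℂ) (k : ℕ) (T : ℝ) (a : Fin (g + 1) → ℤ) : Prop :=
  a (Fin.last g) ≠ 0 ∧ (poly a).Separable ∧
    NoRelation ξ k T fun q : {x // x ∈ roots y a} × Fin p => Complex.Gamma ((y q.2).eval (q.1 : ℂ))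

theorem isOpen_of_loc {S : Set ℂ} (hS : ∀ R : ℝ, (S ∩ Metric.closedBall 0 R).Finite) : IsOpen Sᶜ := by
  rw [isOpen_iff_mem_nhds]
  intro z hz
  have h1 : IsOpen (Metric.ball z 1 ∩ (S ∩ Metric.closedBall 0 (‖z‖ + 1))ᶜ) :=
    Metric.isOpen_ball.inter (hS _).isClosed.isOpen_compl
  refine Filter.mem_of_superset (h1.mem_nhds ⟨Metric.mem_ball_self one_pos, fun h => hz h.1⟩) ?_
  rintro w ⟨hw1, hw2⟩ hw3
  refine hw2 ⟨hw3, ?_⟩
  rw [mem_closedBall_zero_iff]
  have h2 : ‖w - z‖ < 1 := by rwa [Metric.mem_ball, dist_eq_norm] at hw1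
  have h3 : ‖w‖ ≤ ‖w - z‖ + ‖z‖ := by
    have := norm_add_le (w - z) z
    rwa [sub_add_cancel] at this
  linarith

theorem countable_of_loc {S : Set ℂ} (hS : ∀ R : ℝ, (S ∩ Metric.closedBall 0 R).Finite) : S.Countable := by
  have h1 : S = ⋃ n : ℕ, S ∩ Metric.closedBall 0 (n : ℝ) := by
    ext z
    simp only [Set.mem_iUnion, Set.mem_inter_iff, mem_closedBall_zero_iff]
    constructor
    · intro hz
      obtain ⟨n, hn⟩ := exists_nat_ge ‖z‖
      exact ⟨n, hz, hn⟩
    · rintro ⟨_, hz, _⟩
      exact hz
  rw [h1]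
  exact Set.countable_iUnion fun n => (hS n).countable

theorem poles_finite {p : ℕ} (y : Fin p → ℂ[X]) (hy : ∀ i, 0 < (y i).natDegree) (R : ℝ) :
    ((noPole y)ᶜ ∩ Metric.closedBall 0 R).Finite := by
  have hb : ∀ i, ∃ M : ℕ, ∀ z ∈ Metric.closedBall (0 : ℂ) R, ‖(y i).eval z‖ ≤ M := by
    intro i
    obtain ⟨C, hC⟩ := (isCompact_closedBall (0 : ℂ) R).exists_bound_of_continuousOn (y i).continuous.continuousOn
    obtain ⟨M, hM⟩ := exists_nat_ge C
    exact ⟨M, fun z hz => (hC z hz).trans hM⟩
  choose M hM using hb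
  have h1 : ((noPole y)ᶜ ∩ Metric.closedBall 0 R) ⊆
      ⋃ i : Fin p, ⋃ m ∈ Finset.range (M i + 1), {z : ℂ | (y i + C (m : ℂ)).IsRoot z} := by
    rintro z ⟨hz1, hz2⟩
    have hz1' : ¬ ∀ i, ∀ m : ℕ, (y i).eval z ≠ -m := hz1
    push Not at hz1'
    obtain ⟨i, m, him⟩ := hz1'
    simp only [Set.mem_iUnion]
    refine ⟨i, m, ?_, ?_⟩
    · rw [Finset.mem_range, Nat.lt_succ_iff]
      have h2 := hM i z hz2
      rw [him, norm_neg, Complex.norm_natCast] at h2
      exact_mod_cast h2
    · change (y i + C (m : ℂ)).IsRoot z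
      rw [IsRoot.def, eval_add, eval_C, him]
      ring
  refine Set.Finite.subset ?_ h1
  refine Set.finite_iUnion fun i => Set.Finite.biUnion (Finset.finite_toSet _) fun m _ => ?_
  have hne : y i + C (m : ℂ) ≠ 0 := by
    intro h
    have h2 : (y i + C (m : ℂ)).natDegree = (y i).natDegree := natDegree_add_C
    rw [h, natDegree_zero] at h2
    exact absurd h2 (by have := hy i; omega)
  exact Polynomial.finite_setOfPred_isRoot hne

theorem conn {p : ℕ} (y : Fin p → ℂ[X]) (hy : ∀ i, 0 < (y i).natDegree) : IsConnected (noPole y) := by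
  have h1 := (countable_of_loc (poles_finite y hy)).isConnected_compl_of_one_lt_rank (by
    rw [Complex.rank_real_complex]
    norm_num)
  rwa [compl_compl] at h1

theorem isOpen_noPole {p : ℕ} (y : Fin p → ℂ[X]) (hy : ∀ i, 0 < (y i).natDegree) : IsOpen (noPole y) := by
  have h1 := isOpen_of_loc (poles_finite y hy)
  rwa [compl_compl] at h1

theorem an {p : ℕ} (y : Fin p → ℂ[X]) (hy : ∀ i, 0 < (y i).natDegree) (i : Fin p) :
    AnalyticOnNhd ℂ (fun z => Complex.Gamma ((y i).eval z)) (noPole y) := by
  refine DifferentiableOn.analyticOnNhd (fun z hz => ?_) (isOpen_noPole y hy)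
  exact ((Complex.differentiableAt_Gamma _ (hz i)).comp z (y i).differentiable.differentiableAt).differentiableWithinAt

theorem ind {p : ℕ} (y : Fin p → ℂ[X]) (hy : ∀ i, 0 < (y i).natDegree)
    (hH : ∀ i k, i ≠ k → ∀ a b : ℚ, y i ≠ C (a : ℂ) * y k + C (b : ℂ)) :
    Pool.Agent.X255.RH.Indep (noPole y) (fun (i : Fin p) (z : ℂ) => Complex.Gamma ((y i).eval z)) := by
  classical
  obtain ⟨z0, hz0⟩ := (conn y hy).nonempty
  have h1 : Pool.Agent.Y124.LocInd (fun (i : Fin p) (z : ℂ) => Complex.Gamma ((y i).eval z)) z0 := by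
    refine Pool.Agent.Y549.GM.locInd Set.univ isOpen_univ isPreconnected_univ (fun i z => (y i).eval z)
      (fun i => (y i).differentiable.differentiableOn) (fun i => ⟨X - C (y i), X_sub_C_ne_zero _, fun t _ => ?_⟩)
      (fun i v hv => ?_) (fun i k hik a b hab => ?_) z0 (Set.mem_univ _) hz0
    · simp [Polynomial.evalEval]
    · have h2 : y i = C v := Polynomial.funext fun t => by rw [eval_C]; exact hv t (Set.mem_univ _)
      have h3 := hy i
      rw [h2, natDegree_C] at h3
      exact absurd h3 (lt_irrefl _)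
    · refine hH i k hik a b (Polynomial.funext fun t => ?_)
      rw [eval_add, eval_mul, eval_C, eval_C]
      exact hab t (Set.mem_univ _)
  refine Pool.Agent.X255.RH.indep_of_aindepS fun P hP => h1 P ?_
  filter_upwards [(isOpen_noPole y hy).mem_nhds hz0] with t ht using hP t ht

open scoped Classical in
/-- **All roots of almost all polynomials.** Let `y_1, …, y_p` be complex polynomials which are not constant and such that `y_i` is not in
`ℚ y_k + ℚ` for `i ≠ k`. For every degree `g ≥ 1` and all complex numbers `ξ_0, ξ_1, …` there is a function `ω(T) → ∞` such that among the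
`(2 T + 1)^(g + 1)` integral polynomials with coefficients at most `T` at most the proportion `1 / ω(T)` is not good. -/
theorem result (g : ℕ) (hg : 0 < g) (p : ℕ) (y : Fin p → ℂ[X]) (hy : ∀ i, 0 < (y i).natDegree)
    (hH : ∀ i k, i ≠ k → ∀ a b : ℚ, y i ≠ C (a : ℂ) * y k + C (b : ℂ)) (ξ : ℕ → ℂ) :
    ∃ ω : ℕ → ℕ, Tendsto ω atTop atTop ∧ Monotone ω ∧ ∀ T : ℕ,
      ω T * ((box g T).filter fun a => ¬ Good y ξ (ω T) T a).card ≤ (box g T).card :=
  Pool.Agent.X255.RH.main_all hg (conn y hy).isPreconnected (isOpen_noPole y hy) (fun _ => noPole y)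
    (fun _ => by
      have h1 := Pool.Agent.X255.RH.tame_of_discrete (poles_finite y hy)
      rwa [compl_compl] at h1) (an y hy) (ind y hy hH) ξ

end Pool.Agent.Results.MP_26ad15_nt.GammaAtAllRoots
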