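import Pool.Agent.N113.SG.Main

/-!
# The Schanuel type conjecture for the Gamma function is equivalent to a statement on `ℚ`-linear relations

Let `z_1, …, z_n` be irrational complex numbers with `z_i ∉ ℚ z_j + ℚ` for `i ≠ j`. We consider the additive
(that is, `ℚ`-linear) maps `D : ℂ → ℂ` which vanish at the algebraic numbers and satisfy the rule of
differentiation **only for the inverses of the numbers `z_i + c`**, `c = 0, 1, 2, …`:
`D (1 / (z_i + c)) = - D (z_i) / (z_i + c)²`. Nothing is required of products: the only relations with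
rational coefficients between the numbers `z_i`, `Γ(z_i)` which `D` takes into account are the linear
relations between them and the numbers `1 / (z_i + c)`, modulo algebraic numbers. The space of the vectors
`(D (z_i), D (Γ(z_i)))` contains the vectors given by the derivations of `ℂ`, its dimension is at least the
transcendence degree of `ℚ(z_1, …, z_n, Γ(z_1), …, Γ(z_n))`, and it can be much larger.

We prove: the conjecture (transcendence degree at least `n` for all `n` and all `z`) holds if and only if
this space has dimension at least `n` for all `n` and all `z`. Moreover, without any hypothesis, for every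
`z` and every integer `d`: all the tuples containing `z` have transcendence degree at least the number of
points plus `d` if and only if all the tuples containing `z` have dimension at least the number of
points plus `d`.

Proof: for a transcendental number `u` and `c = 1, 2, …` the numbers `w = 1 / (u + c) - 1 / u` are
pairwise inequivalent (even for fractional linear maps with rational coefficients), so for some `c` the
number `w` can be added to the tuple; this costs nothing, because `D w` is determined by linearity and
the value `Γ(w)` is paid by the point `w`. As `1 / w` is a rational combination of `u` and `u²`, now `D`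
satisfies the rule of differentiation for `u²`. All numbers `x` of the ring generated by the coordinates
are treated like this, with the points `m i ± x`. So all polynomial relations are consequences of
linear relations between the coordinates of a larger tuple.
-/

set_option autoImplicit false

open Pool.Agent.N113

namespace Pool.Agent.Results.MP_26ad15_nt.InversionsSuffice

/-- The numbers `z` and `Γ(z)`. -/
noncomputable def numbers (z : ℂ) : Fin 2 → ℂ := ![z, Complex.Gamma z]

/-- Irrational numbers with `z i ∉ ℚ z k + ℚ` for `i ≠ k`. -/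
structure General {κ : Type} (z : κ → ℂ) : Prop where
  irrational : ∀ i, ∀ q : ℚ, z i ≠ q
  independent : ∀ i k, i ≠ k → ∀ a b : ℚ, z i ≠ a * z k + b

/-- The conjecture: for all `n` and all such numbers `z_1, …, z_n` there are `n` algebraically independent
numbers among the `z_i`, `Γ(z_i)`. -/
def Conjecture : Prop := ∀ (n : ℕ) (z : Fin n → ℂ), General z →
  ∃ f : Fin n → Fin n × Fin 2, AlgebraicIndependent ℚ fun k => numbers (z (f k).1) (f k).2

/-- The additive map `D` vanishes at the algebraic numbers and satisfies the rule of differentiation for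
the inverses of the numbers `z i + c`, `c = 0, 1, 2, …`. -/
def Admissible {κ : Type} (z : κ → ℂ) (D : ℂ →ₗ[ℚ] ℂ) : Prop :=
  (∀ a : ℂ, IsAlgebraic ℚ a → D a = 0) ∧
    ∀ (i : κ) (c : ℕ), D (z i + c)⁻¹ = -D (z i) / (z i + c) ^ 2

/-- The vectors `(D (z i), D (Γ(z i)))`, for all admissible maps `D`. -/
def space {κ : Type} (z : κ → ℂ) : Submodule ℂ (κ × Fin 2 → ℂ) where
  carrier := {v | ∃ D : ℂ →ₗ[ℚ] ℂ, Admissible z D ∧ v = fun x => D (numbers (z x.1) x.2)}
  zero_mem' := ⟨0, ⟨fun _ _ => rfl, fun _ _ => by simp⟩, rfl⟩
  add_mem' := by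
    rintro _ _ ⟨D, ⟨h1, h2⟩, rfl⟩ ⟨D', ⟨h3, h4⟩, rfl⟩
    refine ⟨D + D', ⟨fun a ha => ?_, fun i c => ?_⟩, rfl⟩
    · rw [LinearMap.add_apply, h1 a ha, h3 a ha, add_zero]
    · rw [LinearMap.add_apply, LinearMap.add_apply, h2, h4]
      ring
  smul_mem' := by
    rintro a _ ⟨D, ⟨h1, h2⟩, rfl⟩
    refine ⟨a • D, ⟨fun b hb => ?_, fun i c => ?_⟩, rfl⟩
    · rw [LinearMap.smul_apply, h1 b hb, smul_zero]
    · rw [LinearMap.smul_apply, LinearMap.smul_apply, h2, smul_eq_mul, smul_eq_mul]
      ring

/-- the value at a point -/
noncomputable def values (z : ℂ) : Unit → ℂ := fun _ => Complex.Gamma z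

/-- the names of the coordinates -/
def names (κ : Type) : κ × Option Unit ⊕ Empty ≃ κ × Fin 2 :=
  (Equiv.sumEmpty _ _).trans (Equiv.prodCongr (Equiv.refl κ)
    { toFun := fun o => o.elim 0 fun _ => 1
      invFun := fun k => if k = 0 then none else some ()
      left_inv := by rintro (_ | _) <;> rfl
      right_inv := by intro k; fin_cases k <;> rfl })

theorem names_apply {κ : Type} (z : κ → ℂ) (x : κ × Option Unit ⊕ Empty) :
    numbers (z (names κ x).1) (names κ x).2 = SG.co values Empty.elim z x := by
  rcases x with ⟨i, _ | a⟩ | x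
  · rfl
  · rfl
  · exact x.elim

theorem finrank_space {κ : Type} [Fintype κ] (z : κ → ℂ) :
    Module.finrank ℂ (space z) = Module.finrank ℂ (SG.Der values Empty.elim z) := by
  refine SG.finrank_names z (names κ) (fun x => numbers (z x.1) x.2) (names_apply z) _ fun v => ?_
  constructor
  · rintro ⟨D, ⟨h1, h2⟩, rfl⟩
    exact ⟨D, ⟨h1, h2⟩, rfl⟩
  · rintro ⟨D, ⟨h1, h2⟩, rfl⟩
    exact ⟨D, ⟨h1, h2⟩, rfl⟩

theorem cls : SG.Cls {u : ℂ | ∀ q : ℚ, u ≠ q} fun A => General A.t where
  mem := fun A hA i => hA.irrational i
  ne := fun u hu c h => hu (-c) (by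
    push_cast
    linear_combination h)
  lin := fun x => by
    obtain ⟨N, hN⟩ := exists_nat_gt (|x.im|)
    refine ⟨N, fun m hm q h => ?_⟩
    have h1 := congrArg Complex.im h
    rw [Complex.add_im, ← Complex.ofReal_natCast, Complex.im_ofReal_mul, Complex.I_im, mul_one,
      Complex.ratCast_im] at h1
    have h2 : (N : ℝ) ≤ m := by exact_mod_cast hm
    have h3 := abs_lt.1 (lt_of_lt_of_le hN h2)
    linarith
  frac := fun u hu hut => by
    refine ⟨1, fun c hc q h => ?_⟩
    have hu0 : u ≠ 0 := fun h => hu 0 (by rw [h, Rat.cast_zero])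
    have huc : u + c ≠ 0 := fun h => hu (-c) (by
      push_cast
      linear_combination h)
    have h1 : -(c : ℂ) = q * (u * (u + c)) := (div_eq_iff (mul_ne_zero hu0 huc)).1 h
    have h2 : (q : ℂ) * u ^ 2 + (q * c) * u + c = 0 := by linear_combination -h1
    have h3 := (SG.quad hut (SG.alg_rat q) ((SG.alg_rat q).mul (SG.alg_nat c)) (SG.alg_nat c)
      h2).2.2
    have h4 : c = 0 := by exact_mod_cast h3
    omega
  add := fun A w hA hw _ h => by
    have hA' : General A.t := hA
    refine ⟨?_, ?_⟩
    · rintro (_ | i)
      · exact hw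
      · exact hA'.irrational i
    · rintro (_ | i) (_ | k) hik a b hab
      · exact hik rfl
      · change w = a * A.t k + b at hab
        refine h k ⟨a, b, 0, 1, ?_, ?_⟩
        · intro h0
          have ha : a = 0 := by linarith
          rw [ha, Rat.cast_zero, zero_mul, zero_add] at hab
          exact hw b hab
        · push_cast
          linear_combination hab
      · change A.t i = a * w + b at hab
        refine h i (SG.Fl.symm ⟨a, b, 0, 1, ?_, ?_⟩)
        · intro h0
          have ha : a = 0 := by linarith
          rw [ha, Rat.cast_zero, zero_mul, zero_add] at hab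
          exact hA'.irrational i b hab
        · push_cast
          linear_combination hab
      · exact hA'.independent i k (fun h => hik (by rw [h])) a b hab

/-- **The Schanuel type conjecture for the Gamma function is equivalent to a statement on `ℚ`-linear
relations**; and the smallest defects over all the extensions of a given tuple are equal. -/
theorem result :
    (Conjecture ↔ ∀ (κ : Type) [Fintype κ] (z : κ → ℂ), General z →
      Fintype.card κ ≤ Module.finrank ℂ (space z)) ∧
    ∀ (ι : Type) [Fintype ι] (z : ι → ℂ) (d : ℤ),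
      (∀ (κ : Type) [Fintype κ] (y : κ → ℂ), General y → Set.range z ⊆ Set.range y →
        ∃ s : Finset (κ × Fin 2), AlgebraicIndependent ℚ (fun x : s => numbers (y x.1.1) x.1.2) ∧
          (Fintype.card κ : ℤ) + d ≤ s.card) ↔
      (∀ (κ : Type) [Fintype κ] (y : κ → ℂ), General y → Set.range z ⊆ Set.range y →
        (Fintype.card κ : ℤ) + d ≤ Module.finrank ℂ (space y)) := by
  have hcard : ∀ κ : Type, ∀ _ : Fintype κ, ((Fintype.card Unit * Fintype.card κ : ℕ) : ℤ) =
      (Fintype.card κ : ℤ) := by
    intro κ _
    rw [Fintype.card_unit, one_mul]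
  have hloc : ∀ (ι : Type) [Fintype ι] (z : ι → ℂ) (d : ℤ),
      (∀ (κ : Type) [Fintype κ] (y : κ → ℂ), General y → Set.range z ⊆ Set.range y →
        ∃ s : Finset (κ × Fin 2), AlgebraicIndependent ℚ (fun x : s => numbers (y x.1.1) x.1.2) ∧
          (Fintype.card κ : ℤ) + d ≤ s.card) ↔
      (∀ (κ : Type) [Fintype κ] (y : κ → ℂ), General y → Set.range z ⊆ Set.range y →
        (Fintype.card κ : ℤ) + d ≤ Module.finrank ℂ (space y)) := by
    intro ι _ z d
    have h1 := SG.local_iff cls values (Empty.elim : Empty → ℂ) ⟨ι, z⟩ d
    have hsub : ∀ (κ : Type) (_ : Fintype κ) (y : κ → ℂ),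
        Set.range z ⊆ Set.range y ↔ SG.Sub ⟨ι, z⟩ ⟨κ, y⟩ := by
      intro κ _ y
      constructor
      · intro h
        choose g hg using fun i => h ⟨i, rfl⟩
        exact ⟨g, hg⟩
      · rintro ⟨g, hg⟩ _ ⟨i, rfl⟩
        exact ⟨g i, hg i⟩
    constructor
    · intro h κ _ y hy hzy
      have h2 := h1.1 (fun B hB hAB => by
        have h3 := h B.κ B.t hB ((hsub _ _ _).2 hAB)
        rw [hcard]
        exact (SG.indep_names B.t (names B.κ) (fun x => numbers (B.t x.1) x.2)
          (names_apply B.t) _).2 h3) ⟨κ, y⟩ hy ((hsub _ _ _).1 hzy)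
      rw [hcard] at h2
      rw [← finrank_space] at h2
      exact h2
    · intro h κ _ y hy hzy
      have h2 := h1.2 (fun B hB hAB => by
        have h3 := h B.κ B.t hB ((hsub _ _ _).2 hAB)
        rw [hcard, ← finrank_space]
        exact h3) ⟨κ, y⟩ hy ((hsub _ _ _).1 hzy)
      rw [hcard] at h2
      exact (SG.indep_names y (names κ) (fun x => numbers (y x.1) x.2)
        (names_apply y) _).1 h2
  refine ⟨?_, hloc⟩
  have hran : ∀ (κ : Type) (y : κ → ℂ), Set.range (Empty.elim : Empty → ℂ) ⊆ Set.range y := by
    rintro κ y _ ⟨i, -⟩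
    exact i.elim
  have h0 := hloc Empty Empty.elim 0
  have hconj : Conjecture ↔ ∀ (κ : Type) [Fintype κ] (y : κ → ℂ), General y →
      Set.range (Empty.elim : Empty → ℂ) ⊆ Set.range y →
        ∃ s : Finset (κ × Fin 2), AlgebraicIndependent ℚ (fun x : s => numbers (y x.1.1) x.1.2) ∧
          (Fintype.card κ : ℤ) + 0 ≤ s.card := by
    constructor
    · intro h κ _ y hy _
      let e := Fintype.equivFin κ
      have hy' : General (y ∘ e.symm) :=
        ⟨fun i => hy.irrational _, fun i k hik =>
          hy.independent _ _ fun h => hik (e.symm.injective h)⟩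
      obtain ⟨f, hf⟩ := h _ _ hy'
      obtain ⟨s, hs, h2⟩ := (SG.indep_fin (fun x : κ × Fin 2 => numbers (y x.1) x.2)
        (Fintype.card κ)).2 ⟨fun k => (e.symm (f k).1, (f k).2), hf⟩
      refine ⟨s, hs, ?_⟩
      rw [add_zero]
      exact_mod_cast h2
    · intro h n z hz
      obtain ⟨s, hs, h1⟩ := h (Fin n) z hz (hran _ _)
      rw [add_zero, Fintype.card_fin] at h1
      exact (SG.indep_fin (fun x : Fin n × Fin 2 => numbers (z x.1) x.2) n).1
        ⟨s, hs, by exact_mod_cast h1⟩
  rw [hconj, h0]
  constructor
  · intro h κ _ z hz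
    have h1 := h κ z hz (hran _ _)
    rw [add_zero] at h1
    exact_mod_cast h1
  · intro h κ _ z hz _
    have h1 := h κ z hz
    rw [add_zero]
    exact_mod_cast h1

end Pool.Agent.Results.MP_26ad15_nt.InversionsSuffice
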